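import Mathlib
import Pool.Agent.X19.NR.Final

/-!
# MP_cf7953_an: the numerical radius of fractional powers of accretive matrices

For every accretive matrix `A` and every `0 < t < 1` the principal fractional power `A ^ t`
satisfies `ω(A ^ t) ≥ ω(A) ^ t`.
-/

open MeasureTheory Set
open scoped Matrix

namespace Pool.Agent.Results.MP_cf7953_an.AllExponents

noncomputable section

variable {n : ℕ}

/-- The numerical radius: the supremum of `|⟨A x, x⟩|` over the unit vectors `x` of `ℂⁿ`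
(`star x ⬝ᵥ (A *ᵥ x)` is `∑ i, conj (x i) * (A x) i`, and `star x ⬝ᵥ x = ‖x‖²`). -/
def numRadius (A : Matrix (Fin n) (Fin n) ℂ) : ℝ :=
  sSup ((fun x : Fin n → ℂ => ‖star x ⬝ᵥ (A *ᵥ x)‖) '' {x | star x ⬝ᵥ x = 1})

/-- `A` is accretive: `Re ⟨A x, x⟩ > 0` for all `x ≠ 0`. -/
def IsAccretive (A : Matrix (Fin n) (Fin n) ℂ) : Prop :=
  ∀ x : Fin n → ℂ, x ≠ 0 → 0 < (star x ⬝ᵥ (A *ᵥ x)).re

/-- The principal fractional power
`A ^ t = (sin (t π) / π) ∫_0^∞ s ^ (t - 1) A (s I + A)⁻¹ ds`, entry by entry. -/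
def fracPow (A : Matrix (Fin n) (Fin n) ℂ) (t : ℝ) : Matrix (Fin n) (Fin n) ℂ :=
  Matrix.of fun i j => ((Real.sin (t * Real.pi) / Real.pi : ℝ) : ℂ) *
    ∫ s in Ioi (0 : ℝ), ((s ^ (t - 1) : ℝ) : ℂ) * (A * ((s : ℂ) • 1 + A)⁻¹) i j

/-- **`ω(A ^ t) ≥ ω(A) ^ t` for every accretive matrix `A` and every `0 < t < 1`.**
The first two clauses record that the integral defining `A ^ t` is a genuine one. -/
theorem result (n : ℕ) (A : Matrix (Fin n) (Fin n) ℂ) (hA : IsAccretive A) (t : ℝ)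
    (ht0 : 0 < t) (ht1 : t < 1) :
    (∀ s : ℝ, 0 < s → ((s : ℂ) • (1 : Matrix (Fin n) (Fin n) ℂ) + A).det ≠ 0) ∧
    (∀ i j, IntegrableOn (fun s : ℝ => ((s ^ (t - 1) : ℝ) : ℂ) *
      (A * ((s : ℂ) • (1 : Matrix (Fin n) (Fin n) ℂ) + A)⁻¹) i j) (Ioi 0)) ∧
    numRadius A ^ t ≤ numRadius (fracPow A t) :=
  ⟨fun _ hs => X19.NR.det_ne hA hs.le, fun i j => X19.NR.fracPow_int hA ht0 ht1 i j,
    X19.NR.main hA ht0 ht1⟩

end

end Pool.Agent.Results.MP_cf7953_an.AllExponents
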